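import Pool.Agent.X79.EQP.Stm

set_option autoImplicit false

namespace Pool.Agent.X322.PR

open Filter MeasureTheory Set Topology Pool.Agent.X79.EQ

theorem t_L1 : Pool.Agent.X79.EQP.S_L1 := by
  intro U b a u₀ hmono h0 hlim
  obtain ⟨hU, C, hC0, hC⟩ := growth hmono h0 hlim
  have hne : ∀ᵐ s : ℝ ∂volume, s ≠ 1 := by
    simp [ae_iff, measure_singleton]
  have key : Tendsto (fun u : ℝ => ∫ s in Ioi (0:ℝ), U (u*(1-s)) / (Real.exp (u*(1-s)) * u^b))
      atTop (𝓝 (∫ s in Ioi (0:ℝ), if s ≤ 1 then a*(1-s)^b else 0)) := by
    refine tendsto_integral_filter_of_dominated_convergence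
      (fun s => if s ≤ 1+|u₀| then C else 0) ?_ ?_ ?_ ?_
    · refine Eventually.of_forall fun u => ?_
      apply Measurable.aestronglyMeasurable
      have h1 : Measurable (fun s : ℝ => u*(1-s)) := by fun_prop
      exact (hmono.measurable.comp h1).div ((Real.measurable_exp.comp h1).mul_const _)
    · filter_upwards [eventually_ge_atTop 1] with u hu
      refine (ae_restrict_iff' measurableSet_Ioi).2 (Eventually.of_forall fun s hs => ?_)
      have hs0 : 0 < s := hs
      have hu0 : 0 < u := by linarith
      have hden : 0 < Real.exp (u*(1-s)) * u^b := by positivity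
      rw [Real.norm_eq_abs, abs_of_nonneg (div_nonneg (hU _) hden.le), div_le_iff₀ hden]
      split_ifs with h
      · refine (hC _).trans ?_
        have h1 : (max 1 (u*(1-s))) ^ b ≤ u ^ b :=
          pow_le_pow_left₀ (by positivity) (max_le hu (by nlinarith)) b
        have h2 := (Real.exp_pos (u*(1-s))).le
        exact mul_le_mul_of_nonneg_left (mul_le_mul_of_nonneg_left h1 h2) hC0
      · push Not at h
        have h1 : u*(1-s) < u₀ := by
          have h2 : |u₀| < s - 1 := by linarith
          have h3 := neg_abs_le u₀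
          have h4 := abs_nonneg u₀
          have h5 : |u₀| < u*(s-1) := by nlinarith
          nlinarith
        rw [h0 _ h1]; simp
    · exact int_step_integrable C (1+|u₀|)
    · refine (ae_restrict_iff' measurableSet_Ioi).2 ?_
      filter_upwards [hne] with s hs1 hs
      rcases lt_or_gt_of_ne hs1 with h | h
      · rw [if_pos h.le]
        have hpos : 0 < 1 - s := by linarith
        have h1 : Tendsto (fun u : ℝ => u*(1-s)) atTop atTop :=
          tendsto_id.atTop_mul_const hpos
        have h2 : Tendsto (fun u : ℝ => U (u*(1-s)) / nu b (u*(1-s)) * (1-s)^b) atTop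
            (𝓝 (a * (1-s)^b)) := (hlim.comp h1).mul_const _
        refine h2.congr' ?_
        filter_upwards [eventually_gt_atTop 0] with u hu
        unfold nu
        rw [mul_pow]
        have h3 : (1-s)^b ≠ 0 := (pow_pos hpos b).ne'
        have h4 : u^b ≠ 0 := (pow_pos hu b).ne'
        have h5 := (Real.exp_pos (u*(1-s))).ne'
        field_simp
      · rw [if_neg (not_le.mpr h)]
        refine (tendsto_const_nhds (x := (0:ℝ))).congr' ?_
        have h1 : Tendsto (fun u : ℝ => u*(s-1)) atTop atTop :=
          tendsto_id.atTop_mul_const (by linarith)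
        filter_upwards [h1.eventually_gt_atTop (-u₀)] with u hu
        rw [h0 _ (by nlinarith)]; simp
  have hval : (∫ s in Ioi (0:ℝ), if s ≤ 1 then a*(1-s)^b else 0) = a/(b+1) := by
    have h1 : (fun s : ℝ => if s ≤ 1 then a*(1-s)^b else 0) =
        (Iic 1).indicator (fun s => a*(1-s)^b) := by
      ext s; simp [indicator, mem_Iic]
    rw [h1, setIntegral_indicator measurableSet_Iic, Ioi_inter_Iic,
      ← intervalIntegral.integral_of_le (by norm_num : (0:ℝ) ≤ 1),
      intervalIntegral.integral_const_mul,
      intervalIntegral.integral_comp_sub_left (fun x : ℝ => x^b) 1, integral_pow]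
    simp
    ring
  rw [hval] at key
  refine key.congr' ?_
  filter_upwards [eventually_gt_atTop 0] with u hu
  have h1 := integral_comp_mul_left_Ioi (fun v => Real.exp v * U (u - v)) 0 hu
  rw [mul_zero, smul_eq_mul] at h1
  have h2 : (∫ v in Ioi (0:ℝ), Real.exp v * U (u - v)) =
      u * ∫ s in Ioi (0:ℝ), Real.exp (u*s) * U (u - u*s) := by
    rw [h1]; field_simp
  rw [h2]
  have h3 : ∀ s : ℝ, U (u*(1-s)) / (Real.exp (u*(1-s)) * u^b) =
      (Real.exp (u*s) * U (u - u*s)) / (Real.exp u * u^b) := by
    intro s
    have e1 : u*(1-s) = u - u*s := by ring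
    rw [e1, Real.exp_sub]
    have := (Real.exp_pos u).ne'
    have := (Real.exp_pos (u*s)).ne'
    have := (pow_pos hu b).ne'
    field_simp
  simp_rw [h3]
  rw [integral_div]
  unfold nu
  rw [pow_succ]
  have := (Real.exp_pos u).ne'
  have := (pow_pos hu b).ne'
  field_simp

end Pool.Agent.X322.PR
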